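import Pool.Agent.W670.ML.Defs

set_option autoImplicit false

/-!
Part ALL of project ML (problem MP_af4c59_nt).
-/

namespace Pool.Agent.W768.ML

open Pool.Agent.W670.ML NumberField

theorem all : S_ALL := by
  intro hU K _ _ n G hn hG m hm ε hε
  obtain ⟨c, hc, h⟩ := hU (Module.finrank ℚ K) n G hn hG m hm ε hε
  set s : ℝ := (1 : ℝ) / (m : ℝ) + ε with hs
  set D : ℝ := (((discr K).natAbs : ℝ)) ^ n with hD
  have hD0 : 0 ≤ D := by positivity
  have hDs : 0 ≤ c * D ^ s := mul_nonneg hc.le (Real.rpow_nonneg hD0 s)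
  refine ⟨c * D ^ s + 1, by linarith, 1, ?_⟩
  intro X hX
  have hX0 : 0 < X := lt_of_lt_of_le one_pos hX
  have h1 := h K rfl X hX0
  have h2 : (D * X) ^ s = D ^ s * X ^ s := Real.mul_rpow hD0 hX0.le
  rw [h2] at h1
  have h3 : 0 < X ^ s := Real.rpow_pos_of_pos hX0 s
  calc (N K n G X : ℝ) ≤ c * (D ^ s * X ^ s) := h1
    _ < (c * D ^ s + 1) * X ^ s := by nlinarith

end Pool.Agent.W768.ML
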